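import Pool.Agent.Q61.BS.Stm

/-!
Project BS (helper61), job INF.
-/

set_option autoImplicit false

open MeasureTheory Set Filter Topology Real

namespace Pool.Agent.Q181.BS_INF

open Pool.Agent.Q61.BS

theorem log5_pos : 0 < log 5 := log_pos (by norm_num)

theorem den_ge {β₁ β₂ x : ℝ} (h1 : log 5 < β₁) (h2 : log 5 < β₂) (hx : x ∈ Icc (0 : ℝ) 1) :
    log 5 ≤ x * β₁ + (1 - x) * β₂ := by
  have e1 := mul_le_mul_of_nonneg_left h1.le hx.1
  have e2 := mul_le_mul_of_nonneg_left h2.le (sub_nonneg.2 hx.2)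
  nlinarith

/-- the second summand of `FF` -/
noncomputable def tt (β₁ β₂ x : ℝ) : ℝ := (1 - x) * log 3 / (x * β₁ + (1 - x) * β₂)

theorem tt_nonneg {β₁ β₂ x : ℝ} (h1 : log 5 < β₁) (h2 : log 5 < β₂) (hx : x ∈ Icc (0 : ℝ) 1) :
    0 ≤ tt β₁ β₂ x :=
  div_nonneg (mul_nonneg (sub_nonneg.2 hx.2) (log_nonneg (by norm_num)))
    (log5_pos.le.trans (den_ge h1 h2 hx))

theorem tt_le {β₁ β₂ x : ℝ} (h1 : log 5 < β₁) (h2 : log 5 < β₂) (hx : x ∈ Icc (0 : ℝ) 1) :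
    tt β₁ β₂ x ≤ log 3 / log 5 := by
  have h3 : 0 ≤ log 3 := log_nonneg (by norm_num)
  refine div_le_div₀ h3 ?_ log5_pos (den_ge h1 h2 hx)
  have := hx.1
  nlinarith

theorem ff_le {β₁ β₂ x : ℝ} (h1 : log 5 < β₁) (h2 : log 5 < β₂) (hx : x ∈ Icc (0 : ℝ) 1) :
    binEntropy x / log 5 + tt β₁ β₂ x ≤ DD β₁ β₂ := by
  refine le_csSup ⟨log 2 / log 5 + log 3 / log 5, ?_⟩ ⟨x, hx, rfl⟩
  rintro _ ⟨y, hy, rfl⟩
  exact add_le_add (div_le_div_of_nonneg_right binEntropy_le_log_two log5_pos.le) (tt_le h1 h2 hy)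

theorem inf1 (h : S_mmn) (h1 : S_hgt) : S_inf := by
  intro β₁ β₂ hβ₁ hβ₂ δ hδ ω
  by_contra hcon
  rw [not_frequently, eventually_atTop] at hcon
  obtain ⟨N, hN⟩ := hcon
  have hL := log5_pos
  set z : ℕ → ℕ := fun n => zc ω n with hz
  set m : ℕ → ℕ := fun n => mm β₁ β₂ n (z n) with hm
  have hzn : ∀ n, z n ≤ n := fun n => (h1 0 0 ω n).1
  have hx : ∀ n, ((z n : ℝ) / n) ∈ Icc (0 : ℝ) 1 := fun n =>
    ⟨by positivity, div_le_one_of_le₀ (by exact_mod_cast hzn n) (by positivity)⟩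
  have hmn := fun n => h β₁ β₂ hβ₁ hβ₂ n (z n) (hzn n)
  obtain ⟨N1, hN1⟩ := exists_nat_ge (2 * log 3 / (δ * log 5))
  set N0 := max (max N N1) 1 with hN0
  have step : ∀ n, N0 ≤ n → binEntropy ((z n : ℝ) / n) + δ * log 5 / 2 ≤
      binEntropy ((z (m n) : ℝ) / m n) := by
    intro n hn
    have hn1 : 1 ≤ n := (le_max_right _ _).trans hn
    have hnN : N ≤ n := ((le_max_left _ _).trans (le_max_left _ _)).trans hn
    have hnN1 : N1 ≤ n := ((le_max_right _ _).trans (le_max_left _ _)).trans hn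
    have h2 := hN n hnN
    rw [not_le] at h2
    obtain ⟨g1, g2, g3⟩ := hmn n
    have hm1 : (1 : ℝ) ≤ m n := by exact_mod_cast hn1.trans g1
    have hmn1 : (N1 : ℝ) ≤ m n := by exact_mod_cast hnN1.trans g1
    have hn0 : (n : ℝ) ≠ 0 := by positivity
    set x : ℝ := (z n : ℝ) / n with hxd
    have hden := den_ge hβ₁ hβ₂ (hx n)
    have e1 : ((n : ℝ) - z n) * log 3 = sc β₁ β₂ n (z n) * tt β₁ β₂ x := by
      have hzx : (z n : ℝ) = n * x := by rw [hxd]; field_simp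
      rw [sc, tt, hzx]
      rw [← hxd] at hden
      have : x * β₁ + (1 - x) * β₂ ≠ 0 := (hL.trans_le hden).ne'
      field_simp
    have ht0 := tt_nonneg hβ₁ hβ₂ (hx n)
    rw [← hxd] at ht0
    have ht1 := tt_le hβ₁ hβ₂ (hx n)
    rw [← hxd] at ht1
    have hff := ff_le hβ₁ hβ₂ (hx n)
    rw [← hxd] at hff
    have e2 : ((n : ℝ) - z n) * log 3 ≤ (m n + 1) * log 5 * tt β₁ β₂ x := by
      rw [e1]
      exact mul_le_mul_of_nonneg_right g3 ht0
    have e3 : (DD β₁ β₂ + δ) * (m n * log 5) <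
        (m n : ℝ) * binEntropy ((z (m n) : ℝ) / m n) + (m n + 1) * log 5 * tt β₁ β₂ x :=
      h2.trans_le (add_le_add_right e2 _)
    have e4 : binEntropy x + tt β₁ β₂ x * log 5 ≤ DD β₁ β₂ * log 5 := by
      have := mul_le_mul_of_nonneg_right hff hL.le
      rwa [add_mul, div_mul_cancel₀ _ hL.ne'] at this
    have e5 : tt β₁ β₂ x * log 5 ≤ log 3 := by
      rwa [le_div_iff₀ hL] at ht1
    have e6 : 2 * log 3 ≤ (m n : ℝ) * (δ * log 5) := by
      have := hN1.trans hmn1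
      rwa [div_le_iff₀ (mul_pos hδ hL)] at this
    have hmp : (0 : ℝ) < m n := by linarith
    have e7 : (m n : ℝ) * (binEntropy x + δ * log 5 / 2) ≤ (m n : ℝ) * binEntropy ((z (m n) : ℝ) / m n) := by
      have e8 := mul_le_mul_of_nonneg_left e4 hmp.le
      nlinarith
    exact le_of_mul_le_mul_left e7 hmp
  have iter : ∀ k : ℕ, ∃ n, N0 ≤ n ∧ (k : ℝ) * (δ * log 5 / 2) ≤ binEntropy ((z n : ℝ) / n) := by
    intro k
    induction k with
    | zero =>
      refine ⟨N0, le_refl _, ?_⟩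
      rw [Nat.cast_zero, zero_mul]
      exact binEntropy_nonneg (hx N0).1 (hx N0).2
    | succ k ih =>
      obtain ⟨n, hn, hk⟩ := ih
      refine ⟨m n, hn.trans (hmn n).1, ?_⟩
      have := step n hn
      push_cast
      linarith
  obtain ⟨k, hk⟩ := exists_nat_gt (log 2 / (δ * log 5 / 2))
  obtain ⟨n, _, hn⟩ := iter k
  have hp : 0 < δ * log 5 / 2 := by positivity
  rw [div_lt_iff₀ hp] at hk
  have := hn.trans binEntropy_le_log_two
  linarith

end Pool.Agent.Q181.BS_INF
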