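import Pool.Agent.Q88.MD.Stm

/-!
Project MD (helper88), job NPZ: sets of positive measure are not `0`-polar.
-/

set_option autoImplicit false

open MeasureTheory Set Filter Topology
open scoped ENNReal NNReal

namespace Pool.Agent.Q181.MD

open Pool.Agent.Q88.MD

theorem npz (h : S_spos) (h1 : S_mas) (h2 : S_cpt) (h3 : S_sup) : S_npz := by
  intro lam gam q hlam hgam hq f μ hf hμ K hK hK0
  have hg : 0 < gam - 1 := by linarith
  have : IsProbabilityMeasure μ := hμ.1
  have hμ1 : μ (Ico (0 : ℝ) 1) = 1 := by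
    rw [hμ.2 1 (right_mem_Icc.2 zero_le_one), hf.2.2.2.1, ENNReal.ofReal_one]
  have hμc : μ (Ico (0 : ℝ) 1)ᶜ = 0 := (prob_compl_eq_zero_iff measurableSet_Ico).2 hμ1
  have hKI : 0 < μ (K ∩ Ico 0 1) := by
    rw [measure_inter_conull hμc]
    exact hK0
  refine h2 0 ⟨le_refl _, zero_lt_one⟩ μ inferInstance K hK hKI ?_
  intro C _ _
  have hpos := h (gam - 1) lam q hg hlam hq
  have hs := h3 (gam - 1) lam q hg hlam hq
  refine ne_top_of_le_ne_top (ENNReal.ofReal_ne_top
    (r := 2 / (gam - 1) + lam + q / (gam - 1) + 2 * (gam - 1))) ?_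
  apply ENNReal.tsum_le_of_sum_range_le
  intro N
  refine le_trans ?_ (ENNReal.ofReal_le_ofReal (hs N))
  rw [ENNReal.ofReal_sum_of_nonneg fun n _ => Finset.sum_nonneg fun k _ => sq_nonneg _]
  refine Finset.sum_le_sum fun n _ => ?_
  rw [mul_zero, Real.rpow_zero, ENNReal.ofReal_one, one_mul,
    ENNReal.ofReal_sum_of_nonneg fun k _ => sq_nonneg _]
  refine Finset.sum_le_sum fun k hk => ?_
  rw [ENNReal.ofReal_pow ((hpos n).1 k).2.le]
  refine pow_le_pow_left₀ zero_le ?_ 2
  rw [← h1 lam gam q hlam hgam hq f μ hf hμ n k (Finset.mem_range.1 hk)]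
  exact Measure.restrict_apply_le _ _

end Pool.Agent.Q181.MD
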