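import Pool.Agent.Q88.MF.Stm

/-!
# Project MF (helper88), job HLR: the first coordinate is Lipschitz with constant one in the radius
-/

set_option autoImplicit false

namespace Pool.Agent.Q181.MF

open Pool.Agent.Q88.MF

/-- the case `r ≤ r'` -/
theorem hlr_aux (h : S_rat) (h1 : S_kmo) (h2 : S_kra) (h3 : S_key) (a t r r' : ℝ) (ha : 1 < a)
    (ht : 0 ≤ t) (hr : r ≤ r') : H a t r ≤ H a t r' ∧ H a t r' - H a t r ≤ r' - r := by
  obtain ⟨hk0, hkp, hmono⟩ := h1 a ha
  have hle : H a t r ≤ H a t r' := by
    unfold H
    exact max_le_max le_rfl (mul_le_mul_of_nonneg_left (hmono hr) ht)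
  refine ⟨hle, ?_⟩
  rcases ht.eq_or_lt with h0 | h0
  · have hz : ∀ x, H a t x = 0 := by
      intro x
      unfold H mf
      rw [← h0]
      simp
    rw [hz, hz]
    linarith
  · have hM : 0 < mf a t := (h a t t ha h0 le_rfl).1
    by_cases hc : t * kap a r' ≤ mf a t
    · have h5 : H a t r' = mf a t := max_eq_left hc
      have h6 : mf a t ≤ H a t r := le_max_left _ _
      rw [h5]
      linarith
    · rw [not_le] at hc
      have h5 : H a t r' = t * kap a r' := max_eq_right hc.le
      have hMr : mf a t < r' := by
        by_contra hcon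
        rw [not_lt] at hcon
        have h6 : t * kap a r' ≤ t * kap a (mf a t) := mul_le_mul_of_nonneg_left (hmono hcon) ht
        have h7 : t * kap a (mf a t) ≤ mf a t := h3 a t (mf a t) ha h0 le_rfl
        linarith
      -- the intermediate point
      have key : ∀ q, 0 < q → q ≤ r' → mf a t ≤ q → t * kap a r' - t * kap a q ≤ r' - q := by
        intro q hq hqr hMq
        have h6 : kap a r' * q ≤ kap a q * r' := h2 a q r' ha hq hqr
        have h7 : t * kap a q ≤ q := h3 a t q ha h0 hMq
        have h8 : t * (kap a r' * q) ≤ t * (kap a q * r') := mul_le_mul_of_nonneg_left h6 ht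
        have h9 : (t * kap a q) * (r' - q) ≤ q * (r' - q) :=
          mul_le_mul_of_nonneg_right h7 (by linarith)
        have h10 : (t * kap a r' - t * kap a q) * q ≤ (r' - q) * q := by nlinarith
        exact le_of_mul_le_mul_right h10 hq
      rw [h5]
      rcases le_total (mf a t) r with hq | hq
      · have h6 := key r (hM.trans_le hq) hr hq
        have h7 : t * kap a r ≤ H a t r := le_max_right _ _
        linarith
      · have h6 := key (mf a t) hM hMr.le le_rfl
        have h7 : t * kap a (mf a t) ≤ mf a t := h3 a t (mf a t) ha h0 le_rfl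
        have h8 : mf a t ≤ H a t r := le_max_left _ _
        linarith

theorem hlr (h : S_rat) (h1 : S_kmo) (h2 : S_kra) (h3 : S_key) : S_hlr := by
  intro a t r r' ha ht
  rcases le_total r r' with hr | hr
  · obtain ⟨h5, h6⟩ := hlr_aux h h1 h2 h3 a t r r' ha ht hr
    rw [abs_sub_comm (H a t r), abs_sub_comm r, abs_of_nonneg (by linarith), abs_of_nonneg (by linarith)]
    exact h6
  · obtain ⟨h5, h6⟩ := hlr_aux h h1 h2 h3 a t r' r ha ht hr
    rw [abs_of_nonneg (by linarith), abs_of_nonneg (by linarith)]
    exact h6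

end Pool.Agent.Q181.MF
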