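import Pool.Agent.Q256.MP.Stm3
import Pool.Agent.Q285.MP_AVOID

/-!
# Project MP: JOB LINF
-/

set_option autoImplicit false

namespace Pool.Agent.Q181.MP

open Pool.Agent.Q256.MP Matrix

theorem linf : S_linf := by
  intro N m hN z hz
  obtain ⟨N', rfl⟩ : ∃ N', N = N' + 1 := ⟨N - 1, by omega⟩
  have h10 : (1 : Fin (N' + 1 + 1)) ≠ 0 := by
    intro h
    have := congrArg Fin.val h
    simp at this
  -- the first form
  obtain ⟨R1, hR1⟩ := Pool.Agent.Q285.MP.avoid (N' + 1 + 1) (m + 1)
  obtain ⟨u, -, hu⟩ := hR1 (Fin.cons (Pi.single 0 1) z) (by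
    intro i
    refine Fin.cases ?_ (fun i => ?_) i
    · rw [Fin.cons_zero]
      intro h
      have := congrFun h 0
      simp at this
    · rw [Fin.cons_succ]
      exact hz.1 i)
  have hu0 : (u 0 : ℂ) ≠ 0 := by
    have h := hu 0
    rw [Fin.cons_zero] at h
    intro h2
    apply h
    rw [Finset.sum_eq_single 0]
    · rw [h2, zero_mul]
    · intro j _ hj
      rw [Pi.single_eq_of_ne hj, mul_zero]
    · intro h3
      exact absurd (Finset.mem_univ _) h3
  have huz : ∀ i, ∑ j, (u j : ℂ) * z i j ≠ 0 := by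
    intro i
    have h := hu i.succ
    rw [Fin.cons_succ] at h
    exact h
  -- the second form
  set e : Fin (N' + 1 + 1) → ℂ := Pi.single 1 (u 0 : ℂ) - Pi.single 0 (u 1 : ℂ) with he
  have he1 : e 1 = u 0 := by
    rw [he, Pi.sub_apply, Pi.single_eq_same, Pi.single_eq_of_ne h10, sub_zero]
  have he0 : e ≠ 0 := by
    intro h
    apply hu0
    rw [← he1, h, Pi.zero_apply]
  set f : Fin m → Fin m → Fin (N' + 1 + 1) → ℂ := fun i k =>
    if i = k then e else (∑ j, (u j : ℂ) * z k j) • z i - (∑ j, (u j : ℂ) * z i j) • z k with hf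
  have hf0 : ∀ i k, f i k ≠ 0 := by
    intro i k
    rw [hf]
    beta_reduce
    split_ifs with hik
    · exact he0
    · intro h
      rw [sub_eq_zero] at h
      apply hz.2 i k hik ((∑ j, (u j : ℂ) * z k j)⁻¹ * (∑ j, (u j : ℂ) * z i j))
      rw [mul_smul, ← h, smul_smul, inv_mul_cancel₀ (huz k), one_smul]
  obtain ⟨R2, hR2⟩ := Pool.Agent.Q285.MP.avoid (N' + 1 + 1) (m * m + 1)
  obtain ⟨v, -, hv⟩ := hR2 (Fin.cons e fun t => f (finProdFinEquiv.symm t).1 (finProdFinEquiv.symm t).2)
    (by
      intro i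
      refine Fin.cases ?_ (fun i => ?_) i
      · rw [Fin.cons_zero]
        exact he0
      · rw [Fin.cons_succ]
        exact hf0 _ _)
  have hve : (v 1 : ℂ) * u 0 - (v 0 : ℂ) * u 1 ≠ 0 := by
    have h := hv 0
    rw [Fin.cons_zero] at h
    intro h2
    apply h
    rw [he]
    simp only [Pi.sub_apply, mul_sub, Finset.sum_sub_distrib]
    rw [Finset.sum_eq_single 1, Finset.sum_eq_single 0, Pi.single_eq_same, Pi.single_eq_same, h2]
    · intro j _ hj
      rw [Pi.single_eq_of_ne hj, mul_zero]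
    · intro h3
      exact absurd (Finset.mem_univ _) h3
    · intro j _ hj
      rw [Pi.single_eq_of_ne hj, mul_zero]
    · intro h3
      exact absurd (Finset.mem_univ _) h3
  have hvf : ∀ i k, i ≠ k → ∑ j, (v j : ℂ) * f i k j ≠ 0 := by
    intro i k _
    have h := hv (finProdFinEquiv (i, k)).succ
    rw [Fin.cons_succ, Equiv.symm_apply_apply] at h
    exact h
  have hveZ : v 1 * u 0 - v 0 * u 1 ≠ 0 := by
    intro h
    apply hve
    exact_mod_cast congrArg (Int.cast : ℤ → ℂ) h
  set A : Matrix (Fin (N' + 1 + 1)) (Fin (N' + 1 + 1)) ℤ := Matrix.of fun i j =>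
    if i = 0 then u j else if i = 1 then v j else if i = j then 1 else 0 with hA
  have hA0 : ∀ j, A 0 j = u j := fun j => by
    rw [hA, Matrix.of_apply, if_pos rfl]
  have hA1 : ∀ j, A 1 j = v j := fun j => by
    rw [hA, Matrix.of_apply, if_neg h10, if_pos rfl]
  refine ⟨A, ?_, ?_, ?_⟩
  · intro hdet
    obtain ⟨x, hx, hAx⟩ := Matrix.exists_mulVec_eq_zero_iff.2 hdet
    have hx2 : ∀ i, i ≠ 0 → i ≠ 1 → x i = 0 := by
      intro i hi0 hi1
      have h := congrFun hAx i
      rw [Matrix.mulVec, dotProduct, Finset.sum_eq_single i] at h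
      · rw [hA, Matrix.of_apply, if_neg hi0, if_neg hi1, if_pos rfl, one_mul] at h
        exact h
      · intro j _ hj
        rw [hA, Matrix.of_apply, if_neg hi0, if_neg hi1, if_neg (Ne.symm hj), zero_mul]
      · intro h3
        exact absurd (Finset.mem_univ _) h3
    have hsum : ∀ g : Fin (N' + 1 + 1) → ℤ, ∑ j, g j * x j = g 0 * x 0 + g 1 * x 1 := by
      intro g
      rw [← Finset.sum_subset (Finset.subset_univ {0, 1}), Finset.sum_pair h10.symm]
      intro j _ hj
      rw [Finset.mem_insert, Finset.mem_singleton, not_or] at hj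
      rw [hx2 j hj.1 hj.2, mul_zero]
    have e0 : u 0 * x 0 + u 1 * x 1 = 0 := by
      have h := congrFun hAx 0
      rw [Matrix.mulVec, dotProduct] at h
      simp only [hA0] at h
      rw [hsum u] at h
      exact h
    have e1 : v 0 * x 0 + v 1 * x 1 = 0 := by
      have h := congrFun hAx 1
      rw [Matrix.mulVec, dotProduct] at h
      simp only [hA1] at h
      rw [hsum v] at h
      exact h
    have hx0 : x 0 = 0 := by
      have : (v 1 * u 0 - v 0 * u 1) * x 0 = 0 := by
        linear_combination v 1 * e0 - u 1 * e1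
      exact (mul_eq_zero.1 this).resolve_left hveZ
    have hx1 : x 1 = 0 := by
      have : (v 1 * u 0 - v 0 * u 1) * x 1 = 0 := by
        linear_combination u 0 * e1 - v 0 * e0
      exact (mul_eq_zero.1 this).resolve_left hveZ
    apply hx
    funext i
    by_cases hi0 : i = 0
    · rw [hi0]
      exact hx0
    · by_cases hi1 : i = 1
      · rw [hi1]
        exact hx1
      · exact hx2 i hi0 hi1
  · intro i
    simp only [hA0]
    exact huz i
  · intro i k hik
    simp only [hA0, hA1]
    intro h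
    apply hvf i k hik
    rw [hf]
    beta_reduce
    rw [if_neg hik]
    simp only [Pi.sub_apply, Pi.smul_apply, smul_eq_mul]
    have e2 : ∑ j, (v j : ℂ) * ((∑ j, (u j : ℂ) * z k j) * z i j - (∑ j, (u j : ℂ) * z i j) * z k j) =
        (∑ j, (u j : ℂ) * z k j) * (∑ j, (v j : ℂ) * z i j) -
          (∑ j, (u j : ℂ) * z i j) * (∑ j, (v j : ℂ) * z k j) := by
      rw [Finset.mul_sum, Finset.mul_sum, ← Finset.sum_sub_distrib]
      refine Finset.sum_congr rfl fun j _ => ?_
      ring
    rw [e2, h, sub_self]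

end Pool.Agent.Q181.MP
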