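import Mathlib
import Pool.Agent.Q49.MR2.Stm

/-!
Project MR2 (helper49), job B0: the number of zeros of a nondefective form in odd dimension, characteristic 2.
-/

set_option autoImplicit false

open Module

namespace Q181.MR2_B0

open Q49.MR Q49.MR2

section

variable {K V : Type} [Field K] [AddCommGroup V] [Module K V]

/-- a nonzero vector of the kernel of `T` in the radical of the restriction of the polar form -/
theorem exists_rad (h2 : (2 : K) = 0) (B : LinearMap.BilinForm K V) (T : V →ₗ[K] K)
    (hV : finrank K V = 4) (hT : T ≠ 0) :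
    ∃ v0 : V, v0 ≠ 0 ∧ T v0 = 0 ∧ ∀ u : V, T u = 0 → B v0 u + B u v0 = 0 := by
  have hfd : FiniteDimensional K V := FiniteDimensional.of_finrank_eq_succ hV
  have hk : finrank K (LinearMap.ker T) = 3 := by
    have h1 := LinearMap.finrank_range_add_finrank_ker T
    have h3 : LinearMap.range T = ⊤ := LinearMap.range_eq_top.2 (LinearMap.surjective hT)
    rw [h3, finrank_top, finrank_self, hV] at h1
    omega
  let b := finBasisOfFinrankEq K (LinearMap.ker T) hk
  set u : Fin 3 → V := fun i => (b i : V) with hu
  have hTu : ∀ i, T (u i) = 0 := fun i => (b i).2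
  have hli : LinearIndependent K u := b.linearIndependent.map' (LinearMap.ker T).subtype (Submodule.ker_subtype _)
  -- enough on the basis
  have enough : ∀ v0 : V, (∀ i, B v0 (u i) + B (u i) v0 = 0) → ∀ w : V, T w = 0 → B v0 w + B w v0 = 0 := by
    intro v0 h w hw
    have h1 : ((B v0) + B.flip v0).comp (LinearMap.ker T).subtype = 0 := by
      apply b.ext
      intro i
      exact h i
    have h3 := LinearMap.congr_fun h1 ⟨w, hw⟩
    exact h3
  have hself : ∀ x : V, B x x + B x x = 0 := fun x => by rw [← two_mul, h2, zero_mul]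
  by_cases hz : B (u 0) (u 1) + B (u 1) (u 0) = 0 ∧ B (u 0) (u 2) + B (u 2) (u 0) = 0
  · refine ⟨u 0, hli.ne_zero 0, hTu 0, enough _ fun i => ?_⟩
    fin_cases i
    · exact hself _
    · exact hz.1
    · exact hz.2
  · set c12 := B (u 1) (u 2) + B (u 2) (u 1) with h12
    set c02 := B (u 0) (u 2) + B (u 2) (u 0) with h02
    set c01 := B (u 0) (u 1) + B (u 1) (u 0) with h01
    have hv : c12 • u 0 + c02 • u 1 + c01 • u 2 ≠ 0 := by
      intro h
      have h3 := Fintype.linearIndependent_iff.1 hli ![c12, c02, c01] (by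
        rw [Fin.sum_univ_three]
        simpa using h)
      exact hz ⟨h3 2, h3 1⟩
    refine ⟨_, hv, ?_, enough _ fun i => ?_⟩
    · rw [map_add, map_add, map_smul, map_smul, map_smul, hTu, hTu, hTu]
      simp
    · fin_cases i
      · simp only [map_add, map_smul, LinearMap.add_apply, LinearMap.smul_apply, smul_eq_mul, Fin.zero_eta]
        linear_combination (c12 * B (u 0) (u 0) + c01 * c02) * h2 + c02 * (-h01) + c01 * (-h02)
      · simp only [map_add, map_smul, LinearMap.add_apply, LinearMap.smul_apply, smul_eq_mul, Fin.mk_one]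
        linear_combination (c02 * B (u 1) (u 1) + c01 * c12) * h2 + c12 * (-h01) + c01 * (-h12)
      · simp only [map_add, map_smul, LinearMap.add_apply, LinearMap.smul_apply, smul_eq_mul, Fin.reduceFinMk]
        linear_combination (c01 * B (u 2) (u 2) + c02 * c12) * h2 + c12 * (-h02) + c02 * (-h12)

end

theorem b0 : S2_B0 := by
  intro K V _ _ _ _ B T h2 hV hns
  have hfd : FiniteDimensional K V := FiniteDimensional.of_finrank_eq_succ hV
  have : Finite V := Module.finite_of_finite K
  obtain ⟨v0, ρ0, hT0, hrad, hc⟩ : ∃ (v0 : V) (ρ0 : K), T v0 = 0 ∧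
      (∀ v', ρ0 * T v' + B v0 v' + B v' v0 = 0) ∧ ρ0 ^ 2 + B v0 v0 ≠ 0 := by
    by_cases hT : T = 0
    · refine ⟨0, 1, map_zero T, fun v' => ?_, ?_⟩
      · simp [hT]
      · simp
    · obtain ⟨v0, hv0, hT0, hu⟩ := exists_rad h2 B T hV hT
      obtain ⟨v1, hv1⟩ := LinearMap.surjective hT 1
      have hr : ∀ v', (B v0 v1 + B v1 v0) * T v' + B v0 v' + B v' v0 = 0 := by
        intro v'
        have h3 := hu (v' - T v' • v1) (by rw [map_sub, map_smul, hv1, smul_eq_mul, mul_one, sub_self])
        simp only [map_sub, map_smul, LinearMap.sub_apply, LinearMap.smul_apply, smul_eq_mul] at h3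
        linear_combination h3 + (B v0 v1 + B v1 v0) * T v' * h2
      refine ⟨v0, B v0 v1 + B v1 v0, hT0, hr, fun h => ?_⟩
      exact hv0 (hns v0 _ hT0 hr h).1
  set c := ρ0 ^ 2 + B v0 v0 with hcd
  set Q : V × K → K := fun z => z.2 ^ 2 + z.2 * T z.1 + B z.1 z.1 with hQ
  set r : V × K := (v0, ρ0) with hr
  have key : ∀ (x : V × K) (a : K), Q (x + a • r) = Q x + a ^ 2 * c := by
    intro x a
    have h3 := hrad x.1
    simp only [hQ, hr, Prod.fst_add, Prod.snd_add, Prod.smul_fst, Prod.smul_snd, map_add, map_smul,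
      LinearMap.add_apply, LinearMap.smul_apply, smul_eq_mul, hcd, hT0]
    linear_combination a * h3 + (x.2 * a * ρ0) * h2
  have hinj : Function.Injective fun a : K => a ^ 2 := by
    intro a b hab
    have h3 : (a - b) ^ 2 = 0 := by
      have : a ^ 2 = b ^ 2 := hab
      linear_combination this + (b ^ 2 - a * b) * h2
    exact sub_eq_zero.1 (pow_eq_zero_iff two_ne_zero |>.1 h3)
  have hsurj : Function.Surjective fun a : K => a ^ 2 := Finite.surjective_of_injective hinj
  choose s hs using hsurj
  have hs' : ∀ y, s y ^ 2 = y := hs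
  have hrr : ∀ a : K, a • r + a • r = 0 := fun a => by
    rw [← two_smul K (a • r), h2, zero_smul]
  let e : ({z : V × K // Q z = 0} × K) ≃ (V × K) :=
    { toFun := fun p => p.1.1 + p.2 • r
      invFun := fun y => (⟨y + s (Q y / c) • r, by
        rw [key, hs', div_mul_cancel₀ _ hc]
        linear_combination Q y * h2⟩, s (Q y / c))
      left_inv := by
        rintro ⟨⟨x, hx⟩, a⟩
        have h3 : Q (x + a • r) = a ^ 2 * c := by rw [key, hx, zero_add]
        have h4 : s (Q (x + a • r) / c) = a := by
          apply hinj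
          change s (Q (x + a • r) / c) ^ 2 = a ^ 2
          rw [hs', h3, mul_div_cancel_right₀ _ hc]
        refine Prod.ext (Subtype.ext ?_) h4
        change x + a • r + s (Q (x + a • r) / c) • r = x
        rw [h4, add_assoc, hrr, add_zero]
      right_inv := by
        intro y
        change y + s (Q y / c) • r + s (Q y / c) • r = y
        rw [add_assoc, hrr, add_zero] }
  have hcard := Nat.card_congr e
  rw [Nat.card_prod, Nat.card_prod, Module.natCard_eq_pow_finrank (K := K) (V := V), hV] at hcard
  exact Nat.eq_of_mul_eq_mul_right Nat.card_pos hcard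

end Q181.MR2_B0
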