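import Mathlib
import Pool.Agent.Q49.MR.Stm

/-!
Project MR (helper49), job RK: the radical of the forms `TT κ e` has dimension at most one.
-/

set_option autoImplicit false

open Module

namespace Q181.MR_RK

open Q49.MR

section

variable {K L : Type} [Field K] [Finite K] [Field L] [Finite L] [Algebra K L] {σ : L ≃ₐ[K] L}

/-- the four linear relations of an element of the radical -/
theorem rel (h1 : S_TR) (h3 : S_IND) (hσ : Cyc σ) (two : (2 : L) ≠ 0) {κ e : L}
    (hκ : σ (σ (σ (σ κ))) = κ) (he : σ (σ e) = -e) {k : L} (hk : σ (σ (σ (σ k))) = -k)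
    (hr : ∀ x : L, σ (σ (σ (σ x))) = -x → Algebra.trace K L (e * PP σ κ k x) = 0) :
    2 * e * k - (e + σ e) * κ * σ k + (e - σ e) * σ (σ (σ κ)) * σ (σ (σ k)) = 0 ∧
    -((e + σ e) * κ * k) + 2 * σ e * σ k + (e - σ e) * σ κ * σ (σ k) = 0 ∧
    (e - σ e) * σ κ * σ k - 2 * e * σ (σ k) + (e + σ e) * σ (σ κ) * σ (σ (σ k)) = 0 ∧
    (e - σ e) * σ (σ (σ κ)) * k + (e + σ e) * σ (σ κ) * σ (σ k) - 2 * σ e * σ (σ (σ k)) = 0 := by
  apply h3 K L σ hσ
  intro x hx
  have hx' : σ (σ (σ (σ x))) = -x := hx
  have ht := h1 K L σ hσ (e * PP σ κ k x)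
  rw [hr x hx', map_zero] at ht
  have hP : σ (σ (e * PP σ κ k x)) = e * PP σ κ k x := by
    simp only [PP, map_mul, map_add, map_sub, map_ofNat, he, hk, hκ, hx', map_neg]
    ring
  rw [hP, hP, hP] at ht
  have h4 : (4 : L) ≠ 0 := by
    have : (4 : L) = 2 * 2 := by norm_num
    rw [this]
    exact mul_ne_zero two two
  have h5 : e * PP σ κ k x + σ (e * PP σ κ k x) = 0 := by
    have h6 : 4 * (e * PP σ κ k x + σ (e * PP σ κ k x)) = 0 := by
      linear_combination -ht
    exact (mul_eq_zero.1 h6).resolve_left h4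
  simp only [PP, map_mul, map_add, map_sub, map_ofNat, he, hk, hκ, hx', map_neg] at h5
  linear_combination h5

end

theorem rk (h1 : S_TR) (h2 : S_FX) (h3 : S_IND) : S_RK := by
  intro K L _ _ _ _ _ σ hσ κ e hκ hκ0 he he0 k k' hk hk' hli
  have two : (2 : L) ≠ 0 := by
    have := (map_ne_zero (algebraMap K L)).2 hσ.two
    rwa [map_ofNat] at this
  have he' : σ (σ e) = -e := he
  have hkW : σ (σ (σ (σ (k : L)))) = -(k : L) := k.2
  have hkW' : σ (σ (σ (σ (k' : L)))) = -(k' : L) := k'.2
  obtain ⟨a0, a1, a2, a3⟩ := rel h1 h3 hσ two hκ he' hkW (fun x hx => hk ⟨x, hx⟩)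
  obtain ⟨b0, b1, b2, b3⟩ := rel h1 h3 hσ two hκ he' hkW' (fun x hx => hk' ⟨x, hx⟩)
  have neg_self : ∀ {z : L}, z = -z → z = 0 := by
    intro z hz
    have : 2 * z = 0 := by linear_combination hz
    exact (mul_eq_zero.1 this).resolve_left two
  have ha : e + σ e ≠ 0 := by
    intro h
    have h' : σ e = -e := by linear_combination h
    have h'' : σ (σ e) = e := by rw [h', map_neg, h', neg_neg]
    rw [he'] at h''
    exact he0 (neg_self h''.symm)
  have hb : e - σ e ≠ 0 := by
    intro h
    have h' : σ e = e := by linear_combination -h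
    have h'' : σ (σ e) = e := by rw [h', h']
    rw [he'] at h''
    exact he0 (neg_self h''.symm)
  have he1 : σ e ≠ 0 := (map_ne_zero σ).2 he0
  have hκ1 : σ κ ≠ 0 := (map_ne_zero σ).2 hκ0
  have hκ2 : σ (σ κ) ≠ 0 := (map_ne_zero σ).2 hκ1
  have hκ3 : σ (σ (σ κ)) ≠ 0 := (map_ne_zero σ).2 hκ2
  -- the minors
  set D01 := (k : L) * σ k' - σ k * k' with hD01
  set D02 := (k : L) * σ (σ k') - σ (σ k) * k' with hD02
  set D03 := (k : L) * σ (σ (σ k')) - σ (σ (σ k)) * k' with hD03
  set D12 := σ (k : L) * σ (σ k') - σ (σ k) * σ k' with hD12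
  set D13 := σ (k : L) * σ (σ (σ k')) - σ (σ (σ k)) * σ k' with hD13
  set D23 := σ (σ (k : L)) * σ (σ (σ k')) - σ (σ (σ k)) * σ (σ k') with hD23
  have e1 : 2 * e * D01 = (e - σ e) * σ (σ (σ κ)) * D13 := by
    rw [hD01, hD13]; linear_combination σ (k' : L) * a0 - σ (k : L) * b0
  have e2 : 2 * e * D03 = (e + σ e) * κ * D13 := by
    rw [hD03, hD13]; linear_combination σ (σ (σ (k' : L))) * a0 - σ (σ (σ (k : L))) * b0
  have e3 : 2 * e * D12 = (e + σ e) * σ (σ κ) * D13 := by
    rw [hD12, hD13]; linear_combination σ (k' : L) * a2 - σ (k : L) * b2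
  have e4 : 2 * e * D23 = (e - σ e) * σ κ * D13 := by
    rw [hD23, hD13]; linear_combination -(σ (σ (σ (k' : L))) * a2 - σ (σ (σ (k : L))) * b2)
  have f1 : 2 * σ e * D01 = -((e - σ e) * σ κ * D02) := by
    rw [hD01, hD02]; linear_combination -((k' : L) * a1 - (k : L) * b1)
  have f2 : 2 * σ e * D03 = (e + σ e) * σ (σ κ) * D02 := by
    rw [hD03, hD02]; linear_combination (k' : L) * a3 - (k : L) * b3
  have f3 : 2 * σ e * D12 = (e + σ e) * κ * D02 := by
    rw [hD12, hD02]; linear_combination σ (σ (k' : L)) * a1 - σ (σ (k : L)) * b1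
  have f4 : 2 * σ e * D23 = -((e - σ e) * σ (σ (σ κ)) * D02) := by
    rw [hD23, hD02]; linear_combination σ (σ (k' : L)) * a3 - σ (σ (k : L)) * b3
  by_cases hD : D13 = 0
  · have hD1 : D01 = 0 := by
      rw [hD, mul_zero] at e1
      exact (mul_eq_zero.1 e1).resolve_left (mul_ne_zero two he0)
    by_cases hk0 : (k : L) = 0
    · have : k = 0 := Subtype.ext hk0
      rw [this] at hli
      exact hli.ne_zero 0 rfl
    · have hk1 : σ (k : L) ≠ 0 := (map_ne_zero σ).2 hk0
      obtain ⟨c, hc⟩ := h2 K L σ hσ ((k' : L) / k) (by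
        rw [map_div₀, div_eq_div_iff hk1 hk0]
        linear_combination hD1)
      have hck : (k' : L) = algebraMap K L c * k := by
        rw [hc, div_mul_cancel₀ _ hk0]
      rw [LinearIndependent.pair_iff] at hli
      have := (hli c (-1) (by
        apply Subtype.ext
        rw [Submodule.coe_add, Submodule.coe_smul, Submodule.coe_smul, hck, Algebra.smul_def]
        simp)).2
      exact one_ne_zero (neg_eq_zero.1 this)
  · have hD1 : D01 ≠ 0 := by
      intro h
      rw [h, mul_zero] at e1
      exact mul_ne_zero (mul_ne_zero hb hκ3) hD e1.symm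
    have hD2 : D02 ≠ 0 := by
      intro h
      rw [h, mul_zero, neg_zero] at f1
      exact mul_ne_zero (mul_ne_zero two he1) hD1 f1
    set u := e * D02 with hu
    set v := σ e * D13 with hv
    have hu0 : u ≠ 0 := mul_ne_zero he0 hD2
    -- the four ratios
    have g1 : σ κ * u + σ (σ (σ κ)) * v = 0 := by
      have h : (e - σ e) * (σ κ * u + σ (σ (σ κ)) * v) = 0 := by
        rw [hu, hv]; linear_combination -(σ e * e1) + e * f1
      exact (mul_eq_zero.1 h).resolve_left hb
    have g2 : κ * u - σ (σ κ) * v = 0 := by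
      have h : (e + σ e) * (κ * u - σ (σ κ) * v) = 0 := by
        rw [hu, hv]; linear_combination σ e * e3 - e * f3
      exact (mul_eq_zero.1 h).resolve_left ha
    have g3 : σ (σ κ) * u - κ * v = 0 := by
      have h : (e + σ e) * (σ (σ κ) * u - κ * v) = 0 := by
        rw [hu, hv]; linear_combination σ e * e2 - e * f2
      exact (mul_eq_zero.1 h).resolve_left ha
    have h2' : κ * ((u - v) * (u + v)) = 0 := by
      linear_combination u * g2 + v * g3
    rcases mul_eq_zero.1 ((mul_eq_zero.1 h2').resolve_left hκ0) with h | h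
    · have huv : u = v := by linear_combination h
      rw [← huv] at g1 g2
      have i1 : σ κ + σ (σ (σ κ)) = 0 := by
        have : (σ κ + σ (σ (σ κ))) * u = 0 := by linear_combination g1
        exact (mul_eq_zero.1 this).resolve_right hu0
      have i2 : κ - σ (σ κ) = 0 := by
        have : (κ - σ (σ κ)) * u = 0 := by linear_combination g2
        exact (mul_eq_zero.1 this).resolve_right hu0
      have i3 := congrArg σ i2
      rw [map_sub, map_zero] at i3
      exact hκ1 (neg_self (by linear_combination i1 + i3 - σ κ))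
    · have huv : v = -u := by linear_combination h
      rw [huv] at g1 g2
      have i1 : σ κ - σ (σ (σ κ)) = 0 := by
        have : (σ κ - σ (σ (σ κ))) * u = 0 := by linear_combination g1
        exact (mul_eq_zero.1 this).resolve_right hu0
      have i2 : κ + σ (σ κ) = 0 := by
        have : (κ + σ (σ κ)) * u = 0 := by linear_combination g2
        exact (mul_eq_zero.1 this).resolve_right hu0
      have i3 := congrArg σ i2
      rw [map_add, map_zero] at i3
      exact hκ1 (neg_self (by linear_combination i1 + i3))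

end Q181.MR_RK
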