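import Mathlib

/-!
Max-min measures of finite support on ultrametric spaces, their ultrametric and basic operations.
-/

namespace Pool.Agent.Q181.MaxMin

open Set

universe u v

/-- A max-min measure of finite support `⋁ αᵢ ∧ δ_{xᵢ}` on `X`, given by its weight function
`w x = max {αᵢ : xᵢ = x}` (with `w x = -∞` off the support); `max αᵢ = +∞`. -/
structure MM (X : Type u) where
  /-- the weights -/
  w : X → EReal
  fin : {x | w x ≠ ⊥}.Finite
  top : ∃ x, w x = ⊤

namespace MM

variable {X : Type u} {Y : Type v}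

@[ext] lemma ext' {μ ν : MM X} (h : ∀ x, μ.w x = ν.w x) : μ = ν := by
  cases μ; cases ν
  congr
  funext x
  exact h x

/-- The value `μ(φ) = max_i min(αᵢ, φ(xᵢ))` of the max-min measure on a function `φ`. -/
noncomputable def eval (μ : MM X) (φ : X → ℝ) : EReal := ⨆ x, μ.w x ⊓ (φ x : EReal)

/-- The functorial map: `f(⋁ αᵢ ∧ δ_{xᵢ}) = ⋁ αᵢ ∧ δ_{f(xᵢ)}`. -/
noncomputable def push (f : X → Y) (μ : MM X) : MM Y where
  w y := ⨆ (x) (_ : f x = y), μ.w x
  fin := by
    refine (μ.fin.image f).subset fun y hy => ?_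
    by_contra hcon
    apply hy
    refine le_bot_iff.1 (iSup₂_le fun x hx => ?_)
    by_contra h
    exact hcon ⟨x, fun h' => h (le_of_eq h'), hx⟩
  top := by
    obtain ⟨x, hx⟩ := μ.top
    refine ⟨f x, top_le_iff.1 ?_⟩
    rw [← hx]
    exact le_iSup₂_of_le x rfl le_rfl

/-- The Dirac measure `δ_x`. -/
noncomputable def dirac (x : X) : MM X where
  w y := ⨆ _ : x = y, ⊤
  fin := by
    refine (finite_singleton x).subset fun y hy => ?_
    by_contra h
    apply hy
    have h' : ¬ x = y := fun e => h e.symm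
    simp [h']
  top := ⟨x, by simp⟩

/-- The multiplication `ξ(⋁ αᵢ ∧ δ_{μᵢ}) = ⋁ min(αᵢ, β_{ij}) ∧ δ_{x_{ij}}`. -/
noncomputable def join (M : MM (MM X)) : MM X where
  w x := ⨆ μ : MM X, M.w μ ⊓ μ.w x
  fin := by
    refine (M.fin.biUnion fun μ _ => μ.fin).subset fun x hx => ?_
    by_contra hcon
    apply hx
    refine le_bot_iff.1 (iSup_le fun μ => ?_)
    by_contra h
    apply hcon
    rw [mem_iUnion₂]
    refine ⟨μ, fun h' => h ?_, fun h' => h ?_⟩
    · rw [h']; exact inf_le_left
    · rw [h']; exact inf_le_right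
  top := by
    obtain ⟨μ, hμ⟩ := M.top
    obtain ⟨x, hx⟩ := μ.top
    refine ⟨x, top_le_iff.1 ?_⟩
    refine le_iSup_of_le μ ?_
    rw [hμ, hx, inf_top_eq]

/-- The product measure on `X^n`. -/
noncomputable def prod {n : ℕ} (μ : Fin n → MM X) : MM (Fin n → X) where
  w x := ⨅ i, (μ i).w (x i)
  fin := by
    refine (Set.Finite.pi' fun i => (μ i).fin).subset fun x hx i => ?_
    intro h
    apply hx
    exact le_bot_iff.1 ((iInf_le _ i).trans (le_of_eq h))
  top := by
    choose x hx using fun i => (μ i).top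
    exact ⟨x, by simp [hx]⟩

/-- The step function `θ(t) = +∞` for `t > 0`, `θ(t) = -∞` for `t ≤ 0`. -/
noncomputable def theta (t : EReal) : EReal := ⨆ _ : 0 < t, ⊤

lemma theta_eq (t : EReal) : theta t = if 0 < t then ⊤ else ⊥ := by
  unfold theta
  split_ifs with h <;> simp [h]

lemma theta_top : theta ⊤ = ⊤ := by
  rw [theta_eq, if_pos EReal.zero_lt_top]

lemma theta_bot : theta ⊥ = ⊥ := by
  rw [theta_eq, if_neg (by simp)]

lemma theta_zero : theta 0 = ⊥ := by
  rw [theta_eq, if_neg (by simp)]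

lemma theta_iSup {ι : Sort*} (a : ι → EReal) : theta (⨆ i, a i) = ⨆ i, theta (a i) := by
  apply le_antisymm
  · rw [theta_eq]
    split_ifs with h
    · obtain ⟨i, hi⟩ := lt_iSup_iff.1 h
      refine le_iSup_of_le i ?_
      rw [theta_eq, if_pos hi]
    · exact bot_le
  · refine iSup_le fun i => ?_
    rw [theta_eq, theta_eq]
    split_ifs with h1 h2
    · exact le_rfl
    · exact absurd (lt_of_lt_of_le h1 (le_iSup a i)) h2
    · exact bot_le
    · exact le_rfl

lemma theta_inf (a b : EReal) : theta (a ⊓ b) = theta a ⊓ theta b := by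
  rw [theta_eq, theta_eq, theta_eq]
  by_cases ha : 0 < a <;> by_cases hb : 0 < b <;> simp [ha, hb]

/-- The twist of a measure by `θ`. -/
noncomputable def twist (μ : MM X) : MM X where
  w x := theta (μ.w x)
  fin := by
    refine μ.fin.subset fun x hx h => hx ?_
    rw [h, theta_bot]
  top := by
    obtain ⟨x, hx⟩ := μ.top
    exact ⟨x, by rw [hx, theta_top]⟩

/-! ### Formulas -/

lemma push_w (f : X → Y) (μ : MM X) (y : Y) : (push f μ).w y = ⨆ (x) (_ : f x = y), μ.w x := rfl

/-- Change of variables in suprema against a push-forward. -/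
lemma iSup_push (f : X → Y) (μ : MM X) (g : Y → EReal) :
    ⨆ y, (push f μ).w y ⊓ g y = ⨆ x, μ.w x ⊓ g (f x) := by
  apply le_antisymm
  · refine iSup_le fun y => ?_
    rw [push_w, iSup_inf_eq]
    refine iSup_le fun x => ?_
    rw [iSup_inf_eq]
    refine iSup_le fun hx => ?_
    rw [← hx]
    exact le_iSup (fun x => μ.w x ⊓ g (f x)) x
  · refine iSup_le fun x => ?_
    refine le_iSup_of_le (f x) (inf_le_inf_right _ ?_)
    exact le_iSup₂_of_le x rfl le_rfl

lemma push_id (μ : MM X) : push id μ = μ := by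
  ext x
  rw [push_w]
  apply le_antisymm
  · exact iSup₂_le fun y hy => by rw [← hy]; rfl
  · exact le_iSup₂_of_le x rfl le_rfl

lemma push_push {Z : Type*} (f : X → Y) (g : Y → Z) (μ : MM X) :
    push g (push f μ) = push (g ∘ f) μ := by
  ext z
  simp only [push_w]
  apply le_antisymm
  · refine iSup₂_le fun y hy => iSup₂_le fun x hx => ?_
    exact le_iSup₂_of_le x (by rw [← hy, ← hx]; rfl) le_rfl
  · refine iSup₂_le fun x hx => ?_
    exact le_iSup₂_of_le (f x) hx (le_iSup₂_of_le x rfl le_rfl)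

lemma push_dirac (f : X → Y) (x : X) : push f (dirac x) = dirac (f x) := by
  ext y
  rw [push_w]
  apply le_antisymm
  · refine iSup₂_le fun x' hx' => ?_
    refine iSup_le fun h => ?_
    refine le_iSup_of_le (f := fun _ : f x = y => (⊤ : EReal)) (by rw [h, hx']) le_rfl
  · refine iSup_le fun h => ?_
    refine le_iSup₂_of_le x h ?_
    exact le_iSup_of_le (f := fun _ : x = x => (⊤ : EReal)) rfl le_rfl

lemma dirac_self (x : X) : (dirac x).w x = ⊤ := by simp [dirac]

/-- `⨆` against a Dirac measure. -/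
lemma iSup_dirac (x : X) (g : X → EReal) : ⨆ y, (dirac x).w y ⊓ g y = g x := by
  apply le_antisymm
  · refine iSup_le fun y => ?_
    by_cases h : x = y
    · rw [← h]; exact inf_le_right
    · have : (dirac x).w y = ⊥ := by simp [dirac, h]
      rw [this, bot_inf_eq]; exact bot_le
  · refine le_iSup_of_le x ?_
    rw [dirac_self, top_inf_eq]

lemma join_w (M : MM (MM X)) (x : X) : (join M).w x = ⨆ μ : MM X, M.w μ ⊓ μ.w x := rfl

lemma join_push (f : X → MM Y) (μ : MM X) (y : Y) :
    (join (push f μ)).w y = ⨆ x, μ.w x ⊓ (f x).w y := by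
  rw [join_w, iSup_push f μ (fun ν => ν.w y)]

lemma join_dirac (μ : MM X) : join (dirac μ) = μ := by
  ext x
  rw [join_w, iSup_dirac μ (fun ν => ν.w x)]

lemma join_push_dirac (μ : MM X) : join (push dirac μ) = μ := by
  ext x
  rw [join_push]
  apply le_antisymm
  · refine iSup_le fun y => ?_
    by_cases h : y = x
    · rw [← h]; exact inf_le_left
    · have : (dirac y).w x = ⊥ := by simp [dirac, h]
      rw [this, inf_bot_eq]; exact bot_le
  · refine le_iSup_of_le x ?_
    rw [dirac_self, inf_top_eq]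

lemma join_naturality (f : X → Y) (M : MM (MM X)) :
    join (push (push f) M) = push f (join M) := by
  ext y
  rw [join_push]
  simp only [push_w, join_w]
  apply le_antisymm
  · refine iSup_le fun μ => ?_
    rw [inf_iSup_eq]
    refine iSup_le fun x => ?_
    rw [inf_iSup_eq]
    refine iSup_le fun hx => ?_
    exact le_iSup₂_of_le x hx (le_iSup (fun μ : MM X => M.w μ ⊓ μ.w x) μ)
  · refine iSup₂_le fun x hx => iSup_le fun μ => ?_
    refine le_iSup_of_le μ (inf_le_inf_left _ ?_)
    exact le_iSup₂_of_le x hx le_rfl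

lemma join_assoc (M : MM (MM (MM X))) : join (push join M) = join (join M) := by
  ext x
  rw [join_push]
  simp only [join_w]
  apply le_antisymm
  · refine iSup_le fun N => ?_
    rw [inf_iSup_eq]
    refine iSup_le fun μ => ?_
    refine le_iSup_of_le μ ?_
    rw [← inf_assoc]
    exact inf_le_inf_right _ (le_iSup (fun N : MM (MM X) => M.w N ⊓ N.w μ) N)
  · refine iSup_le fun μ => ?_
    rw [iSup_inf_eq]
    refine iSup_le fun N => ?_
    refine le_iSup_of_le N ?_
    rw [inf_assoc]
    exact inf_le_inf_left _ (le_iSup (fun μ : MM X => N.w μ ⊓ μ.w x) μ)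

/-! ### Twist -/

lemma twist_dirac (x : X) : twist (dirac x) = dirac x := by
  ext y
  change theta (⨆ _ : x = y, ⊤) = ⨆ _ : x = y, ⊤
  rw [theta_iSup]
  simp only [theta_top]

lemma twist_bind (f : X → MM Y) (μ : MM X) :
    twist (join (push f μ)) = join (push (fun x => twist (f x)) (twist μ)) := by
  ext y
  change theta ((join (push f μ)).w y) = _
  rw [join_push, join_push, theta_iSup]
  refine iSup_congr fun x => ?_
  rw [theta_inf]
  rfl

/-! ### Products -/

lemma prod_dirac {n : ℕ} (x : Fin n → X) : prod (fun i => dirac (x i)) = dirac x := by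
  ext y
  change ⨅ i, (dirac (x i)).w (y i) = (dirac x).w y
  by_cases h : x = y
  · subst h
    rw [dirac_self]
    simp [dirac_self]
  · obtain ⟨i, hi⟩ := Function.ne_iff.1 h
    have h1 : (dirac x).w y = ⊥ := by simp [dirac, h]
    have h2 : (dirac (x i)).w (y i) = ⊥ := by simp [dirac, hi]
    rw [h1]
    exact le_bot_iff.1 ((iInf_le _ i).trans (le_of_eq h2))

lemma prod_push {n : ℕ} (f : X → Y) (μ : Fin n → MM X) :
    prod (fun i => push f (μ i)) = push (fun x i => f (x i)) (prod μ) := by
  ext y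
  change ⨅ i, (push f (μ i)).w (y i) =
    ⨆ (x : Fin n → X) (_ : (fun i => f (x i)) = y), ⨅ i, (μ i).w (x i)
  apply le_antisymm
  · simp only [push_w]
    have h1 : ∀ i, (⨆ (x) (_ : f x = y i), (μ i).w x) = ⨆ x : {x // f x = y i}, (μ i).w x.1 :=
      fun i => by rw [iSup_subtype']
    simp only [h1]
    rw [iInf_iSup_eq]
    refine iSup_le fun g => ?_
    exact le_iSup₂_of_le (fun i => (g i).1) (funext fun i => (g i).2) le_rfl
  · refine iSup₂_le fun x hx => le_iInf fun i => (iInf_le _ i).trans ?_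
    exact le_iSup₂_of_le (x i) (congrFun hx i) le_rfl

lemma prod_bind {n : ℕ} (f : X → MM Y) (μ : Fin n → MM X) :
    prod (fun i => join (push f (μ i))) =
      join (push (fun x : Fin n → X => prod fun i => f (x i)) (prod μ)) := by
  ext y
  change ⨅ i, (join (push f (μ i))).w (y i) = _
  rw [join_push]
  simp only [join_push]
  rw [iInf_iSup_eq]
  refine iSup_congr fun x => ?_
  change ⨅ i, (μ i).w (x i) ⊓ (f (x i)).w (y i) =
    (⨅ i, (μ i).w (x i)) ⊓ (⨅ i, (f (x i)).w (y i))
  rw [iInf_inf_eq]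

end MM

end Pool.Agent.Q181.MaxMin
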