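import Mathlib
import Pool.Agent.Q181.MaxMin

/-!
The ultrametric on the set of max-min measures of finite support.
-/

namespace Pool.Agent.Q181.MaxMin

open Set

universe u v

namespace MM

variable {X : Type u} {Y : Type v} [MetricSpace X] [IsUltrametricDist X]
  [MetricSpace Y] [IsUltrametricDist Y]

/-- `φ ∈ F_r(X)`: `φ` is constant on every open ball of radius `r`. -/
def IsF (r : ℝ) (φ : X → ℝ) : Prop :=
  ∀ x, ∀ y ∈ Metric.ball x r, ∀ z ∈ Metric.ball x r, φ y = φ z

/-- The distance `d̂(μ, ν) = inf {r > 0 : μ(φ) = ν(φ) for all φ ∈ F_r(X)}`. -/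
noncomputable def dhat (μ ν : MM X) : ℝ :=
  sInf {r : ℝ | 0 < r ∧ ∀ φ : X → ℝ, IsF r φ → eval μ φ = eval ν φ}

/-- The supremum of the weights over the open ball of radius `r`. -/
noncomputable def bs (μ : MM X) (r : ℝ) (x : X) : EReal := ⨆ (y) (_ : dist y x < r), μ.w y

/-- `μ` and `ν` agree at scale `r`. -/
def Agree (r : ℝ) (μ ν : MM X) : Prop := ∀ x, bs μ r x = bs ν r x

lemma bs_congr (μ : MM X) {r : ℝ} {x y : X} (h : dist x y < r) : bs μ r x = bs μ r y := by
  unfold bs
  have key : ∀ z, dist z x < r ↔ dist z y < r := by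
    intro z
    constructor
    · intro hz
      exact lt_of_le_of_lt (dist_triangle_max z x y) (max_lt hz h)
    · intro hz
      rw [dist_comm] at h
      exact lt_of_le_of_lt (dist_triangle_max z y x) (max_lt hz h)
  simp only [key]

lemma eval_eq {r : ℝ} (hr : 0 < r) (μ : MM X) {φ : X → ℝ} (hφ : IsF r φ) :
    eval μ φ = ⨆ x, bs μ r x ⊓ (φ x : EReal) := by
  unfold eval
  apply le_antisymm
  · refine iSup_mono fun x => inf_le_inf_right _ ?_
    exact le_iSup₂_of_le x (by simpa using hr) le_rfl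
  · refine iSup_le fun x => ?_
    unfold bs
    rw [iSup_inf_eq]
    refine iSup_le fun y => ?_
    rw [iSup_inf_eq]
    refine iSup_le fun hy => ?_
    have : φ x = φ y := hφ x x (Metric.mem_ball_self hr) y hy
    rw [this]
    exact le_iSup (fun y => μ.w y ⊓ (φ y : EReal)) y

lemma agree_of_eval {r : ℝ} {μ ν : MM X}
    (h : ∀ φ : X → ℝ, IsF r φ → eval μ φ = eval ν φ) : Agree r μ ν := by
  classical
  -- by symmetry it suffices to prove one inequality
  have key : ∀ μ ν : MM X, (∀ φ : X → ℝ, IsF r φ → eval μ φ = eval ν φ) →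
      ∀ x, bs ν r x ≤ bs μ r x := by
    intro μ ν h x
    by_contra hcon
    push Not at hcon
    obtain ⟨t, ht1, ht2⟩ := EReal.lt_iff_exists_real_btwn.1 hcon
    let φ : X → ℝ := fun y => if dist y x < r then t else t - 1
    have hφ : IsF r φ := by
      intro z y hy w hw
      have hyw : dist y w < r := by
        have h1 : dist y z < r := hy
        have h2 : dist z w < r := by rw [dist_comm]; exact hw
        exact lt_of_le_of_lt (dist_triangle_max y z w) (max_lt h1 h2)
      have : dist y x < r ↔ dist w x < r := by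
        constructor
        · intro h3
          rw [dist_comm] at hyw
          exact lt_of_le_of_lt (dist_triangle_max w y x) (max_lt hyw h3)
        · intro h3
          exact lt_of_le_of_lt (dist_triangle_max y w x) (max_lt hyw h3)
      simp only [φ, this]
    have he := h φ hφ
    -- the value of `μ` is `< t`
    have h1 : eval μ φ < (t : EReal) := by
      have h2 : eval μ φ ≤ max (bs μ r x) ((t - 1 : ℝ) : EReal) := by
        refine iSup_le fun y => ?_
        by_cases hy : dist y x < r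
        · refine le_max_of_le_left (inf_le_left.trans ?_)
          exact le_iSup₂_of_le y hy le_rfl
        · refine le_max_of_le_right (inf_le_right.trans ?_)
          simp [φ, hy]
      refine lt_of_le_of_lt h2 (max_lt ht1 ?_)
      exact_mod_cast sub_one_lt t
    -- the value of `ν` is `≥ t`
    have h3 : (t : EReal) ≤ eval ν φ := by
      obtain ⟨y, hy⟩ := lt_iSup_iff.1 ht2
      obtain ⟨hyx, hy'⟩ := lt_iSup_iff.1 hy
      refine le_iSup_of_le y (le_inf hy'.le ?_)
      simp [φ, hyx]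
    rw [he] at h1
    exact absurd h3 (not_le.2 h1)
  intro x
  exact le_antisymm (key ν μ (fun φ hφ => (h φ hφ).symm) x) (key μ ν h x)

lemma agree_iff {r : ℝ} (hr : 0 < r) {μ ν : MM X} :
    (∀ φ : X → ℝ, IsF r φ → eval μ φ = eval ν φ) ↔ Agree r μ ν := by
  refine ⟨agree_of_eval, fun h φ hφ => ?_⟩
  rw [eval_eq hr μ hφ, eval_eq hr ν hφ]
  exact iSup_congr fun x => by rw [h x]

lemma bs_mono_eq (μ : MM X) {r s : ℝ} (hr : 0 < r) (hrs : r ≤ s) (x : X) :
    bs μ s x = ⨆ (y) (_ : dist y x < s), bs μ r y := by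
  apply le_antisymm
  · refine iSup₂_le fun y hy => ?_
    refine le_iSup₂_of_le y hy ?_
    exact le_iSup₂_of_le y (by simpa using hr) le_rfl
  · refine iSup₂_le fun y hy => iSup₂_le fun z hz => ?_
    refine le_iSup₂_of_le z ?_ le_rfl
    exact lt_of_le_of_lt (dist_triangle_max z y x) (max_lt (lt_of_lt_of_le hz hrs) hy)

lemma Agree.mono {r s : ℝ} (hr : 0 < r) (hrs : r ≤ s) {μ ν : MM X} (h : Agree r μ ν) :
    Agree s μ ν := by
  intro x
  rw [bs_mono_eq μ hr hrs, bs_mono_eq ν hr hrs]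
  exact iSup_congr fun y => iSup_congr fun _ => h y

lemma exists_agree (μ ν : MM X) : ∃ r : ℝ, 0 < r ∧ Agree r μ ν := by
  let T : Set X := {x | μ.w x ≠ ⊥} ∪ {x | ν.w x ≠ ⊥}
  have hT : T.Finite := μ.fin.union ν.fin
  obtain ⟨C, hC⟩ := Metric.isBounded_iff.1 hT.isBounded
  refine ⟨max C 0 + 1, by positivity, fun x => ?_⟩
  have hlt : ∀ a ∈ T, ∀ b ∈ T, dist a b < max C 0 + 1 := fun a ha b hb => by
    have := hC ha hb
    have h2 := le_max_left C 0
    linarith
  by_cases hex : ∃ a ∈ T, dist a x < max C 0 + 1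
  · obtain ⟨a, ha, hax⟩ := hex
    have hall : ∀ b ∈ T, dist b x < max C 0 + 1 := fun b hb =>
      lt_of_le_of_lt (dist_triangle_max b a x) (max_lt (hlt b hb a ha) hax)
    obtain ⟨p, hp⟩ := μ.top
    obtain ⟨q, hq⟩ := ν.top
    have h1 : bs μ (max C 0 + 1) x = ⊤ := by
      refine top_le_iff.1 ?_
      rw [← hp]
      exact le_iSup₂_of_le p (hall p (Or.inl (by simp [hp]))) le_rfl
    have h2 : bs ν (max C 0 + 1) x = ⊤ := by
      refine top_le_iff.1 ?_
      rw [← hq]
      exact le_iSup₂_of_le q (hall q (Or.inr (by simp [hq]))) le_rfl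
    rw [h1, h2]
  · push Not at hex
    have h1 : bs μ (max C 0 + 1) x = ⊥ := by
      refine le_bot_iff.1 (iSup₂_le fun y hy => ?_)
      by_contra h
      have hy' : y ∈ T := Or.inl fun h' => h (le_of_eq h')
      exact absurd hy (not_lt.2 (hex y hy'))
    have h2 : bs ν (max C 0 + 1) x = ⊥ := by
      refine le_bot_iff.1 (iSup₂_le fun y hy => ?_)
      by_contra h
      have hy' : y ∈ T := Or.inr fun h' => h (le_of_eq h')
      exact absurd hy (not_lt.2 (hex y hy'))
    rw [h1, h2]

lemma dhat_eq (μ ν : MM X) : dhat μ ν = sInf {r : ℝ | 0 < r ∧ Agree r μ ν} := by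
  unfold dhat
  congr 1
  ext r
  constructor
  · rintro ⟨hr, h⟩; exact ⟨hr, (agree_iff hr).1 h⟩
  · rintro ⟨hr, h⟩; exact ⟨hr, (agree_iff hr).2 h⟩

lemma bddBelow_set (μ ν : MM X) : BddBelow {r : ℝ | 0 < r ∧ Agree r μ ν} :=
  ⟨0, fun _ hr => hr.1.le⟩

lemma dhat_nonneg (μ ν : MM X) : 0 ≤ dhat μ ν := by
  rw [dhat_eq]
  exact Real.sInf_nonneg fun r hr => hr.1.le

lemma agree_of_dhat_lt {μ ν : MM X} {r : ℝ} (h : dhat μ ν < r) : Agree r μ ν := by
  rw [dhat_eq] at h
  have hne : {r : ℝ | 0 < r ∧ Agree r μ ν}.Nonempty := exists_agree μ ν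
  obtain ⟨s, ⟨hs, hs'⟩, hsr⟩ := exists_lt_of_csInf_lt hne h
  exact hs'.mono hs hsr.le

lemma dhat_le_of_agree {μ ν : MM X} {c : ℝ} (hc : 0 ≤ c) (h : ∀ r, c < r → Agree r μ ν) :
    dhat μ ν ≤ c := by
  rw [dhat_eq]
  refine le_of_forall_gt_imp_ge_of_dense fun r hr => ?_
  exact csInf_le (bddBelow_set μ ν) ⟨lt_of_le_of_lt hc hr, h r hr⟩

lemma agree_refl (r : ℝ) (μ : MM X) : Agree r μ μ := fun _ => rfl

lemma dhat_triangle_max (μ ν ρ : MM X) : dhat μ ρ ≤ max (dhat μ ν) (dhat ν ρ) := by
  refine dhat_le_of_agree (le_max_of_le_left (dhat_nonneg _ _)) fun r hr x => ?_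
  have h1 := agree_of_dhat_lt (lt_of_le_of_lt (le_max_left _ _) hr) x
  have h2 := agree_of_dhat_lt (lt_of_le_of_lt (le_max_right _ _) hr) x
  exact h1.trans h2

lemma eq_of_dhat_eq_zero {μ ν : MM X} (h : dhat μ ν = 0) : μ = ν := by
  have hag : ∀ r > 0, Agree r μ ν := fun r hr => agree_of_dhat_lt (by rw [h]; exact hr)
  ext x
  let T : Set X := {x | μ.w x ≠ ⊥} ∪ {x | ν.w x ≠ ⊥}
  have hT : T.Finite := μ.fin.union ν.fin
  -- a radius isolating `x` in `T`
  obtain ⟨r, hr, hrT⟩ : ∃ r > 0, ∀ a ∈ T, dist a x < r → a = x := by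
    have h1 : (T \ {x}).Finite := hT.subset sdiff_subset
    have h2 : IsClosed (T \ {x}) := h1.isClosed
    obtain ⟨r, hr, hr'⟩ := Metric.isOpen_iff.1 h2.isOpen_compl x (by simp)
    refine ⟨r, hr, fun a ha hax => ?_⟩
    by_contra hne
    exact hr' hax ⟨ha, hne⟩
  have hbs : ∀ ρ : MM X, (∀ y, ρ.w y ≠ ⊥ → y ∈ T) → bs ρ r x = ρ.w x := by
    intro ρ hρ
    apply le_antisymm
    · refine iSup₂_le fun y hy => ?_
      by_cases hb : ρ.w y = ⊥
      · rw [hb]; exact bot_le
      · rw [hrT y (hρ y hb) hy]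
    · exact le_iSup₂_of_le x (by simpa using hr) le_rfl
  have := hag r hr x
  rwa [hbs μ fun y hy => Or.inl hy, hbs ν fun y hy => Or.inr hy] at this

noncomputable instance : MetricSpace (MM X) where
  dist := dhat
  dist_self μ := le_antisymm (dhat_le_of_agree le_rfl fun r _ => agree_refl r μ) (dhat_nonneg _ _)
  dist_comm μ ν := by
    rw [dhat_eq, dhat_eq]
    congr 1
    ext r
    constructor
    · rintro ⟨hr, h⟩; exact ⟨hr, fun x => (h x).symm⟩
    · rintro ⟨hr, h⟩; exact ⟨hr, fun x => (h x).symm⟩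
  dist_triangle μ ν ρ := (dhat_triangle_max μ ν ρ).trans
    (max_le_add_of_nonneg (dhat_nonneg _ _) (dhat_nonneg _ _))
  eq_of_dist_eq_zero := eq_of_dhat_eq_zero

lemma dist_def (μ ν : MM X) : dist μ ν = dhat μ ν := rfl

instance : IsUltrametricDist (MM X) := ⟨dhat_triangle_max⟩

/-! ### The operations are nonexpanding -/

lemma dist_le_of_agree {μ ν : MM X} {c : ℝ} (hc : 0 ≤ c) (h : ∀ r, c < r → Agree r μ ν) :
    dist μ ν ≤ c := dhat_le_of_agree hc h

lemma agree_of_dist_lt {μ ν : MM X} {r : ℝ} (h : dist μ ν < r) : Agree r μ ν :=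
  agree_of_dhat_lt h

lemma Agree.push {r : ℝ} (hr : 0 < r) {f : X → Y} (hf : ∀ x y, dist (f x) (f y) ≤ dist x y)
    {μ ν : MM X} (h : Agree r μ ν) : Agree r (push f μ) (push f ν) := by
  have key : ∀ (ρ : MM X) (y : Y), bs (MM.push f ρ) r y = ⨆ (x) (_ : dist (f x) y < r), bs ρ r x := by
    intro ρ y
    unfold bs
    apply le_antisymm
    · refine iSup₂_le fun y' hy' => ?_
      rw [push_w]
      refine iSup₂_le fun x hx => ?_
      refine le_iSup₂_of_le x (by rw [hx]; exact hy') ?_
      exact le_iSup₂_of_le x (by simpa using hr) le_rfl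
    · refine iSup₂_le fun x hx => iSup₂_le fun x' hx' => ?_
      refine le_iSup₂_of_le (f x') ?_ (le_iSup₂_of_le x' rfl le_rfl)
      exact lt_of_le_of_lt (dist_triangle_max _ (f x) _)
        (max_lt (lt_of_le_of_lt (hf _ _) hx') hx)
  intro y
  rw [key, key]
  exact iSup_congr fun x => iSup_congr fun _ => h x

lemma dist_push_le {f : X → Y} (hf : ∀ x y, dist (f x) (f y) ≤ dist x y) (μ ν : MM X) :
    dist (push f μ) (push f ν) ≤ dist μ ν :=
  dist_le_of_agree dist_nonneg fun r hr =>
    Agree.push (lt_of_le_of_lt dist_nonneg hr) hf (agree_of_dist_lt hr)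

lemma dist_dirac_le (x y : X) : dist (dirac x) (dirac y) ≤ dist x y := by
  refine dist_le_of_agree dist_nonneg fun r hr z => ?_
  have key : ∀ a : X, bs (dirac a) r z = ⨆ _ : dist a z < r, ⊤ := by
    intro a
    unfold bs dirac
    apply le_antisymm
    · refine iSup₂_le fun b hb => iSup_le fun hab => ?_
      exact le_iSup_of_le (f := fun _ : dist a z < r => (⊤ : EReal)) (by rw [hab]; exact hb) le_rfl
    · refine iSup_le fun ha => ?_
      exact le_iSup₂_of_le a ha (le_iSup_of_le (f := fun _ : a = a => (⊤ : EReal)) rfl le_rfl)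
  rw [key, key]
  have : dist x z < r ↔ dist y z < r := by
    constructor
    · intro h
      have hr' : dist y x < r := by rw [dist_comm]; exact hr
      exact lt_of_le_of_lt (dist_triangle_max y x z) (max_lt hr' h)
    · intro h
      exact lt_of_le_of_lt (dist_triangle_max x y z) (max_lt hr h)
  simp only [this]

lemma dist_join_le (M N : MM (MM X)) : dist (join M) (join N) ≤ dist M N := by
  refine dist_le_of_agree dist_nonneg fun r hr x => ?_
  have hr0 : 0 < r := lt_of_le_of_lt dist_nonneg hr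
  have hag : Agree r M N := agree_of_dist_lt hr
  have key : ∀ L : MM (MM X), bs (join L) r x = ⨆ μ, bs L r μ ⊓ bs μ r x := by
    intro L
    apply le_antisymm
    · refine iSup₂_le fun y hy => ?_
      rw [join_w]
      refine iSup_mono fun μ => inf_le_inf ?_ ?_
      · exact le_iSup₂_of_le μ (by simpa using hr0) le_rfl
      · exact le_iSup₂_of_le y hy le_rfl
    · refine iSup_le fun μ => ?_
      conv_lhs => unfold bs
      rw [iSup_inf_eq]
      refine iSup_le fun ν => ?_
      rw [iSup_inf_eq]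
      refine iSup_le fun hν => ?_
      have h1 : bs μ r x = bs ν r x := (agree_of_dist_lt hν x).symm
      change L.w ν ⊓ bs μ r x ≤ _
      rw [h1]
      unfold bs
      rw [inf_iSup_eq]
      refine iSup_le fun y => ?_
      rw [inf_iSup_eq]
      refine iSup_le fun hy => ?_
      refine le_iSup₂_of_le y hy ?_
      exact le_iSup (fun ν : MM X => L.w ν ⊓ ν.w y) ν
  rw [key, key]
  exact iSup_congr fun μ => by rw [hag μ]

lemma dist_twist_le (μ ν : MM X) : dist (twist μ) (twist ν) ≤ dist μ ν := by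
  refine dist_le_of_agree dist_nonneg fun r hr x => ?_
  have key : ∀ ρ : MM X, bs (twist ρ) r x = theta (bs ρ r x) := by
    intro ρ
    unfold bs
    rw [theta_iSup]
    refine iSup_congr fun y => ?_
    rw [theta_iSup]
    rfl
  rw [key, key, agree_of_dist_lt hr x]

lemma bs_prod {n : ℕ} {r : ℝ} (hr : 0 < r) (μ : Fin n → MM X) (x : Fin n → X) :
    bs (prod μ) r x = ⨅ i, bs (μ i) r (x i) := by
  have h1 : ∀ i, bs (μ i) r (x i) = ⨆ y : {y // dist y (x i) < r}, (μ i).w y.1 := fun i => by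
    unfold bs; rw [iSup_subtype']
  simp only [h1]
  rw [iInf_iSup_eq]
  unfold bs
  apply le_antisymm
  · refine iSup₂_le fun y hy => ?_
    refine le_iSup_of_le (fun i => ⟨y i, (dist_pi_lt_iff hr).1 hy i⟩) le_rfl
  · refine iSup_le fun g => ?_
    exact le_iSup₂_of_le (fun i => (g i).1) ((dist_pi_lt_iff hr).2 fun i => (g i).2) le_rfl

instance {n : ℕ} : IsUltrametricDist (Fin n → X) := by
  refine ⟨fun x y z => ?_⟩
  rw [dist_pi_le_iff (le_max_of_le_left dist_nonneg)]
  intro i
  exact (dist_triangle_max (x i) (y i) (z i)).trans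
    (max_le_max (dist_le_pi_dist x y i) (dist_le_pi_dist y z i))

lemma dist_prod_le {n : ℕ} (μ ν : Fin n → MM X) : dist (prod μ) (prod ν) ≤ dist μ ν := by
  refine dist_le_of_agree dist_nonneg fun r hr x => ?_
  have hr0 : 0 < r := lt_of_le_of_lt dist_nonneg hr
  rw [bs_prod hr0, bs_prod hr0]
  refine iInf_congr fun i => ?_
  exact agree_of_dist_lt (lt_of_le_of_lt (dist_le_pi_dist μ ν i) hr) (x i)

/-- A max-min measure is determined by its values on continuous functions, so `MM X` is the set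
`J_ω(X)` of functionals on `C(X)`. -/
lemma eval_injective {μ ν : MM X} (h : ∀ φ : C(X, ℝ), eval μ φ = eval ν φ) : μ = ν := by
  apply eq_of_dhat_eq_zero
  refine le_antisymm (dhat_le_of_agree le_rfl fun r hr => agree_of_eval fun φ hφ => ?_)
    (dhat_nonneg _ _)
  have hc : Continuous φ := by
    rw [continuous_iff_continuousAt]
    intro x
    refine ContinuousAt.congr (f := fun _ => φ x) continuousAt_const ?_
    filter_upwards [Metric.ball_mem_nhds x hr] with y hy
    exact hφ x x (Metric.mem_ball_self hr) y hy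
  exact h ⟨φ, hc⟩

end MM

end Pool.Agent.Q181.MaxMin
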