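import Mathlib

/-!
Selectively highly divergent (SHD) spaces, the Cantor cube `2^𝔠` and the Σ-product in it.
-/

namespace Pool.Agent.Q181.SHDSigma

open Set Topology Filter

/-- Selectively highly divergent spaces: from every sequence of non-empty open sets one can choose
points `x n ∈ U n` such that no subsequence of `x` converges. -/
def SHD (X : Type*) [TopologicalSpace X] : Prop :=
  ∀ U : ℕ → Set X, (∀ n, IsOpen (U n) ∧ (U n).Nonempty) →
    ∃ x : ℕ → X, (∀ n, x n ∈ U n) ∧
      ∀ φ : ℕ → ℕ, StrictMono φ → ∀ y : X, ¬ Tendsto (x ∘ φ) atTop (𝓝 y)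

/-- An index set of cardinality continuum. -/
abbrev Idx := (ℕ → ℕ) × ℝ

/-- In `2^Idx` one can find points with finitely many prescribed coordinates without convergent
subsequence. -/
theorem exists_divergent (F : ℕ → Finset Idx) (p : ℕ → Idx → Bool) :
    ∃ x : ℕ → Idx → Bool, (∀ n, ∀ i ∈ F n, x n i = p n i) ∧
      ∀ φ : ℕ → ℕ, StrictMono φ → ∀ y : Idx → Bool, ¬ Tendsto (x ∘ φ) atTop (𝓝 y) := by
  classical
  let C : Set Idx := ⋃ n, (F n : Set Idx)
  have hC : C.Countable := countable_iUnion fun n => (F n).countable_toSet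
  refine ⟨fun n i => if i ∈ C then p n i else decide (∃ k, Even k ∧ i.1 k = n), ?_, ?_⟩
  · intro n i hi
    have : i ∈ C := mem_iUnion.2 ⟨n, hi⟩
    simp [this]
  · intro φ hφ y hy
    have hcount : {t : ℝ | (φ, t) ∈ C}.Countable :=
      hC.preimage fun a b h => by simpa using h
    obtain ⟨t, ht⟩ : ∃ t : ℝ, (φ, t) ∉ C := by
      by_contra hcon
      push Not at hcon
      have : {t : ℝ | (φ, t) ∈ C} = univ := eq_univ_of_forall hcon
      rw [this] at hcount
      exact Cardinal.not_countable_real hcount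
    have h1 := (continuous_apply ((φ, t) : Idx)).continuousAt.tendsto.comp hy
    have h2 : ∀ k, (((fun f : Idx → Bool => f (φ, t)) ∘ ((fun n i =>
        if i ∈ C then p n i else decide (∃ k, Even k ∧ i.1 k = n)) ∘ φ)) k) = decide (Even k) := by
      intro k
      simp only [Function.comp_apply, if_neg ht]
      congr 1
      apply propext
      constructor
      · rintro ⟨k', hk', he⟩
        rwa [hφ.injective he] at hk'
      · intro hk
        exact ⟨k, hk, rfl⟩
    have h3 := h1.eventually (IsOpen.mem_nhds (isOpen_discrete {y (φ, t)}) rfl)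
    obtain ⟨N, hN⟩ := eventually_atTop.1 h3
    have e1 : decide (Even N) = y (φ, t) := (h2 N).symm.trans (hN N le_rfl)
    have e2 : decide (Even (N + 1)) = y (φ, t) := (h2 (N + 1)).symm.trans (hN (N + 1) (Nat.le_succ N))
    have e3 : decide (Even N) = decide (Even (N + 1)) := e1.trans e2.symm
    rw [decide_eq_decide, Nat.even_add_one] at e3
    tauto

/-- A non-empty open set of `2^I` contains a basic box. -/
theorem exists_box {I : Type*} {U : Set (I → Bool)} (hU : IsOpen U) (hne : U.Nonempty) :
    ∃ (F : Finset I) (p : I → Bool), {x : I → Bool | ∀ i ∈ F, x i = p i} ⊆ U := by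
  obtain ⟨p, hp⟩ := hne
  obtain ⟨F, u, hu, hFu⟩ := isOpen_pi_iff.1 hU p hp
  refine ⟨F, p, fun x hx => hFu fun i hi => ?_⟩
  rw [hx i hi]
  exact (hu i hi).2

/-- The Cantor cube `2^𝔠` is SHD. -/
theorem shd_cube : SHD (Idx → Bool) := by
  intro U hU
  choose F p hFp using fun n => exists_box (hU n).1 (hU n).2
  obtain ⟨x, hx, hdiv⟩ := exists_divergent F p
  exact ⟨x, fun n => hFp n (hx n), hdiv⟩

/-- The Σ-product in `2^I`: all points with countable support. -/
def Sig (I : Type*) : Set (I → Bool) := {x | {i | x i = true}.Countable}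

/-- The restriction of `x` to the finite set `F`. -/
noncomputable def restr {I : Type*} (x : I → Bool) (F : Finset I) : I → Bool :=
  open Classical in fun i => if i ∈ F then x i else false

theorem restr_mem {I : Type*} (x : I → Bool) (F : Finset I) : restr x F ∈ Sig I := by
  refine F.countable_toSet.mono fun i hi => ?_
  by_contra h
  have h' : i ∉ F := h
  simp [restr, h'] at hi

theorem tendsto_restr {I : Type*} (x : I → Bool) :
    Tendsto (restr x) atTop (𝓝 x) := by
  rw [tendsto_pi_nhds]
  intro i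
  refine tendsto_const_nhds.congr' ?_
  filter_upwards [eventually_ge_atTop {i}] with F hF
  have : i ∈ F := hF (Finset.mem_singleton_self i)
  simp [restr, this]

theorem dense_sig (I : Type*) : Dense (Sig I) := fun x =>
  mem_closure_of_tendsto (tendsto_restr x) (Eventually.of_forall (restr_mem x))

/-- The Σ-product is sequentially compact. -/
theorem exists_convergent {I : Type*} (x : ℕ → Sig I) :
    ∃ (φ : ℕ → ℕ) (y : Sig I), StrictMono φ ∧ Tendsto (x ∘ φ) atTop (𝓝 y) := by
  classical
  let C : Set I := ⋃ n, {i | (x n : I → Bool) i = true}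
  have hC : C.Countable := countable_iUnion fun n => (x n).2
  have : Countable C := hC.to_subtype
  let z : ℕ → (C → Bool) := fun n i => (x n : I → Bool) i
  obtain ⟨a, φ, hφ, ha⟩ := SeqCompactSpace.tendsto_subseq z
  let y : I → Bool := fun i => if h : i ∈ C then a ⟨i, h⟩ else false
  have hy : y ∈ Sig I := by
    refine hC.mono fun i hi => ?_
    by_contra h
    have hi' : y i = true := hi
    simp only [y, dif_neg h] at hi'
    exact Bool.false_ne_true hi'
  refine ⟨φ, ⟨y, hy⟩, hφ, ?_⟩
  rw [tendsto_subtype_rng, tendsto_pi_nhds]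
  intro i
  by_cases h : i ∈ C
  · have h1 := (tendsto_pi_nhds.1 ha) ⟨i, h⟩
    have h2 : y i = a ⟨i, h⟩ := dif_pos h
    change Tendsto _ _ (𝓝 (y i))
    rw [h2]
    exact h1
  · have h2 : y i = false := dif_neg h
    change Tendsto _ _ (𝓝 (y i))
    rw [h2]
    refine tendsto_const_nhds.congr fun n => ?_
    have h3 : ¬ (x (φ n) : I → Bool) i = true := fun h4 => h (mem_iUnion.2 ⟨φ n, h4⟩)
    simp only [Function.comp_apply]
    exact (Bool.eq_false_iff.2 h3).symm

theorem not_shd_sig (I : Type*) : ¬ SHD (Sig I) := by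
  intro h
  have hne : Nonempty (Sig I) := ⟨⟨_, restr_mem (fun _ => false) ∅⟩⟩
  obtain ⟨x, -, hx⟩ := h (fun _ => univ) fun _ => ⟨isOpen_univ, univ_nonempty⟩
  obtain ⟨φ, y, hφ, hy⟩ := exists_convergent x
  exact hx φ hφ y hy

theorem not_compact_sig : ¬ CompactSpace (Sig Idx) := by
  intro h
  have h1 : IsCompact (Sig Idx) := isCompact_iff_compactSpace.2 h
  have h2 : closure (Sig Idx) = univ := (dense_sig Idx).closure_eq
  rw [h1.isClosed.closure_eq] at h2
  have h3 : (fun _ => true) ∈ Sig Idx := h2 ▸ mem_univ _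
  have h4 : (univ : Set Idx).Countable := by
    refine h3.mono fun i _ => ?_
    simp
  have h5 : (univ : Set ℝ).Countable :=
    (h4.preimage (f := fun t : ℝ => ((fun _ => 0 : ℕ → ℕ), t)) fun a b h => by simpa using h)
  exact Cardinal.not_countable_real h5

/-- The Stone–Čech compactification of the Σ-product of `2^𝔠` is SHD. -/
theorem shd_stoneCech : SHD (StoneCech (Sig Idx)) := by
  intro U hU
  let e : Sig Idx → StoneCech (Sig Idx) := stoneCechUnit
  have he : Continuous e := continuous_stoneCechUnit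
  let π : StoneCech (Sig Idx) → (Idx → Bool) :=
    stoneCechExtend (g := (Subtype.val : Sig Idx → (Idx → Bool))) continuous_subtype_val
  have hπ : Continuous π := continuous_stoneCechExtend _
  have hπe : ∀ x, π (e x) = x := fun x =>
    congrFun (stoneCechExtend_extends continuous_subtype_val) x
  -- boxes whose trace on the Σ-product has closure in `U n`
  have hbox : ∀ n, ∃ (F : Finset Idx) (p : Idx → Bool),
      closure (e '' {x : Sig Idx | ∀ i ∈ F, (x : Idx → Bool) i = p i}) ⊆ U n := by
    intro n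
    obtain ⟨y, hy⟩ := (hU n).2
    obtain ⟨t, ht, htc, htU⟩ := exists_mem_nhds_isClosed_subset ((hU n).1.mem_nhds hy)
    obtain ⟨W, hWt, hWo, hyW⟩ := mem_nhds_iff.1 ht
    have hW : closure W ⊆ U n := (closure_minimal hWt htc).trans htU
    have hne : (e ⁻¹' W).Nonempty := by
      obtain ⟨z, hzW, ⟨x, rfl⟩⟩ := denseRange_stoneCechUnit.inter_open_nonempty W hWo ⟨y, hyW⟩
      exact ⟨x, hzW⟩
    have hO : IsOpen (e ⁻¹' W) := hWo.preimage he
    obtain ⟨V, hV, hVW⟩ := isOpen_induced_iff.1 hO
    have hVne : V.Nonempty := by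
      obtain ⟨x, hx⟩ := hne
      rw [← hVW] at hx
      exact ⟨x, hx⟩
    obtain ⟨F, p, hFp⟩ := exists_box hV hVne
    refine ⟨F, p, (closure_mono ?_).trans hW⟩
    rintro _ ⟨x, hx, rfl⟩
    have hxV : x ∈ Subtype.val ⁻¹' V := hFp hx
    rw [hVW] at hxV
    exact hxV
  choose F p hFp using hbox
  obtain ⟨x, hx, hdiv⟩ := exists_divergent F p
  -- lift `x n` to `U n`
  have hlift : ∀ n, ∃ y ∈ U n, π y = x n := by
    intro n
    let K := closure (e '' {x : Sig Idx | ∀ i ∈ F n, (x : Idx → Bool) i = p n i})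
    have hK : IsCompact K := isClosed_closure.isCompact
    have hK' : IsClosed (π '' K) := (hK.image hπ).isClosed
    have hmem : x n ∈ π '' K := by
      refine hK'.mem_of_tendsto (tendsto_restr (x n)) ?_
      filter_upwards [eventually_ge_atTop (F n)] with G hG
      refine ⟨e ⟨_, restr_mem (x n) G⟩, subset_closure ⟨_, ?_, rfl⟩, hπe _⟩
      intro i hi
      have : i ∈ G := hG hi
      simp only [restr, this, if_true]
      exact hx n i hi
    obtain ⟨y, hy, hyx⟩ := hmem
    exact ⟨y, hFp n hy, hyx⟩
  choose y hyU hyx using hlift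
  refine ⟨y, hyU, fun φ hφ z hz => hdiv φ hφ (π z) ?_⟩
  have := (hπ.tendsto z).comp hz
  refine this.congr fun n => ?_
  exact hyx (φ n)

end Pool.Agent.Q181.SHDSigma
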